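import Mathlib
import Pool.Agent.H32.MulLp

/-!
# MP_d09f5b_an, Q2: the multiplier algebra `M(L^p(G))` has the spectral permanence property
-/

namespace Pool.Agent.Results.MP_d09f5b_an.Permanence

open MeasureTheory Filter Topology Set
open scoped ENNReal

universe u v

section Defs

variable {G : Type u} [AddCommGroup G] [TopologicalSpace G] [IsTopologicalAddGroup G]
  [MeasurableSpace G] [BorelSpace G] (μ : Measure G) [μ.IsAddHaarMeasure]
  (p : ℝ≥0∞) [Fact (1 ≤ p)]

/-- Translation by `a` on `L^p(G)`: the class of `f` goes to the class of `x ↦ f (x + a)`. -/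
noncomputable def translation (a : G) : Lp ℂ p μ →L[ℂ] Lp ℂ p μ :=
  (Lp.compMeasurePreservingₗᵢ ℂ (fun x => x + a)
    (measurePreserving_add_right μ a)).toContinuousLinearMap

/-- The multiplier algebra `M(L^p(G))`: the bounded operators on `L^p(G)` commuting with all
translations, with composition and the operator norm. -/
noncomputable def Multipliers : Subalgebra ℂ (Lp ℂ p μ →L[ℂ] Lp ℂ p μ) :=
  Subalgebra.centralizer ℂ (Set.range (translation μ p))

end Defs

/-- Spectral permanence of a unital normed algebra `A`: spectra do not change when `A` is embedded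
(unital algebra homomorphism and topological embedding) in any unital normed algebra `B`. -/
def SpectralPermanence (A : Type u) [NormedRing A] [NormedAlgebra ℂ A] : Prop :=
  ∀ (B : Type v) [NormedRing B] [NormedAlgebra ℂ B] (ι : A →ₐ[ℂ] B),
    IsEmbedding ι → ∀ T : A, spectrum ℂ (ι T) = spectrum ℂ T

/-- `A` is commutative. -/
def IsComm (A : Type u) [NormedRing A] : Prop := ∀ S T : A, S * T = T * S

theorem aux {A : Type u} {B : Type v} [NormedRing A] [NormedAlgebra ℂ A] [NormedRing B] [NormedAlgebra ℂ B]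
    (ι : A →ₐ[ℂ] B) (hι : IsEmbedding ι)
    (hA : ∀ (T : A) (c : ℝ), 0 < c → (∀ S : A, c * ‖S‖ ≤ ‖T * S‖) → IsUnit T) (T : A) :
    spectrum ℂ (ι T) = spectrum ℂ T := by
  have hunit : ∀ T : A, IsUnit (ι T) → IsUnit T := by
    intro T hT
    obtain ⟨u, hu⟩ := hT
    let ιL : A →L[ℂ] B := ⟨ι.toLinearMap, hι.continuous⟩
    have hanti : ∃ K : NNReal, AntilipschitzWith K ιL :=
      (ContinuousLinearMap.antilipschitz_of_isEmbedding ιL hι)
    obtain ⟨K, hK⟩ := hanti
    refine hA T (1 / ((K + 1) * (‖(↑u⁻¹ : B)‖ + 1) * (‖ιL‖ + 1))) (by positivity) fun S => ?_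
    have h1 : ‖S‖ ≤ K * ‖ιL S‖ := hK.le_mul_norm (map_zero ιL) S
    have h2 : ιL S = (↑u⁻¹ : B) * ιL (T * S) := by
      show ι S = (↑u⁻¹ : B) * ι (T * S)
      rw [map_mul, ← hu, ← mul_assoc, Units.inv_mul, one_mul]
    have h3 : ‖ιL S‖ ≤ ‖(↑u⁻¹ : B)‖ * (‖ιL‖ * ‖T * S‖) := by
      rw [h2]
      exact (norm_mul_le _ _).trans (mul_le_mul_of_nonneg_left (ιL.le_opNorm _) (norm_nonneg _))
    rw [one_div, inv_mul_le_iff₀ (by positivity)]
    have hK0 : (0 : ℝ) ≤ K := K.2
    calc ‖S‖ ≤ K * (‖(↑u⁻¹ : B)‖ * (‖ιL‖ * ‖T * S‖)) :=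
          h1.trans (mul_le_mul_of_nonneg_left h3 hK0)
      _ ≤ (K + 1) * ((‖(↑u⁻¹ : B)‖ + 1) * ((‖ιL‖ + 1) * ‖T * S‖)) := by
          gcongr <;> linarith
      _ = _ := by ring
  ext z
  rw [spectrum.mem_iff, spectrum.mem_iff, not_iff_not]
  have : algebraMap ℂ B z - ι T = ι (algebraMap ℂ A z - T) := by
    rw [map_sub, AlgHom.commutes]
  rw [this]
  exact ⟨hunit _, fun h => h.map ι⟩

theorem result {G : Type u} [AddCommGroup G] [TopologicalSpace G] [IsTopologicalAddGroup G]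
    [CompactSpace G] [T2Space G] [MeasurableSpace G] [BorelSpace G]
    (μ : Measure G) [μ.IsAddHaarMeasure] (p : ℝ≥0∞) [Fact (1 ≤ p)] (hp : p ≠ ∞) :
    IsComm (Multipliers μ p) ∧ SpectralPermanence.{u, v} (Multipliers μ p) := by
  have hc : ∀ S T : Multipliers μ p, S * T = T * S :=
    Pool.Agent.H32.MulLp.mult_comm (μ := μ) hp
  refine ⟨hc, fun B _ _ ι hι T => aux ι hι (fun T c hc0 hb => ?_) T⟩
  exact Pool.Agent.H32.MulLp.isUnit_of_bdd (μ := μ) hp T (fun S => hc S T) hc0 hb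

end Pool.Agent.Results.MP_d09f5b_an.Permanence
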